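import Mathlib
import Pool.Agent.Helper456.HC.Roots
import Pool.Agent.Helper456.HD.Final

set_option autoImplicit false

namespace Pool.Agent.Results.MP_7acab9_co.CentralHalving

open Finset

/-- A large set `LS[2](t,k,v)`: the `k`-subsets of a `v`-set are split into two disjoint
families, each containing every `t`-subset in the same number `lam` of members. -/
def LargeSetTwo (t k v : ℕ) : Prop :=
  ∃ B₁ B₂ : Finset (Finset (Fin v)),
    Disjoint B₁ B₂ ∧
    B₁ ∪ B₂ = (Finset.univ : Finset (Fin v)).powersetCard k ∧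
    ∃ lam : ℕ, ∀ T : Finset (Fin v), T.card = t →
      (B₁.filter (fun b => T ⊆ b)).card = lam ∧ (B₂.filter (fun b => T ⊆ b)).card = lam

/-- Feasibility of the parameters. -/
def Feasible (t k v : ℕ) : Prop := ∀ i : ℕ, i ≤ t → 2 ∣ Nat.choose (v - i) (k - i)

open Pool.Agent.Helper456.HC in
lemma of_LS (t k v : ℕ) (htk : t ≤ k) (h : LS (t + 1) k v) : LargeSetTwo t k v := by
  obtain ⟨f, hf⟩ := h
  set P := (Finset.univ : Finset (Fin v)).powersetCard k with hP
  refine ⟨P.filter (fun S => f S = 1), P.filter (fun S => ¬ f S = 1),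
    Finset.disjoint_filter_filter_not _ _ _, Finset.filter_union_filter_not_eq _ _,
    (v - t).choose (k - t) / 2, ?_⟩
  intro T hT
  have h1 := hf.null T (by omega)
  rw [← hP] at h1
  have hc : (P.filter (fun S => T ⊆ S)).card = (v - t).choose (k - t) := by
    rw [hP, card_sup _ _ _ (Finset.subset_univ T) (by omega), Finset.card_univ,
      Fintype.card_fin, hT]
  have h2 : ∑ S ∈ P.filter (fun S => T ⊆ S), f S
      = (((P.filter (fun S => T ⊆ S)).filter (fun S => f S = 1)).card : ℤ)
        - ((P.filter (fun S => T ⊆ S)).filter (fun S => ¬ f S = 1)).card := by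
    rw [← Finset.sum_filter_add_sum_filter_not (P.filter (fun S => T ⊆ S)) (fun S => f S = 1)]
    have e1 : ∑ S ∈ (P.filter (fun S => T ⊆ S)).filter (fun S => f S = 1), f S
        = ∑ S ∈ (P.filter (fun S => T ⊆ S)).filter (fun S => f S = 1), (1 : ℤ) :=
      Finset.sum_congr rfl fun S hS => (Finset.mem_filter.1 hS).2
    have e2 : ∑ S ∈ (P.filter (fun S => T ⊆ S)).filter (fun S => ¬ f S = 1), f S
        = ∑ S ∈ (P.filter (fun S => T ⊆ S)).filter (fun S => ¬ f S = 1), (-1 : ℤ) := by
      refine Finset.sum_congr rfl fun S hS => ?_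
      rw [Finset.mem_filter, Finset.mem_filter, hP, Finset.mem_powersetCard] at hS
      exact (hf.sign S hS.1.1.1 hS.1.1.2).resolve_left hS.2
    rw [e1, e2, Finset.sum_const, Finset.sum_const]
    simp only [nsmul_eq_mul]
    ring
  have h3 := Finset.card_filter_add_card_filter_not (s := P.filter (fun S => T ⊆ S))
    (fun S => f S = 1)
  rw [hc] at h3
  have h4 : ((P.filter (fun S => T ⊆ S)).filter (fun S => f S = 1)).card
      = ((P.filter (fun S => T ⊆ S)).filter (fun S => ¬ f S = 1)).card := by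
    rw [h2] at h1
    have : (((P.filter (fun S => T ⊆ S)).filter (fun S => f S = 1)).card : ℤ)
        = ((P.filter (fun S => T ⊆ S)).filter (fun S => ¬ f S = 1)).card := by linarith
    exact_mod_cast this
  rw [Finset.filter_comm (p := fun S => f S = 1), Finset.filter_comm (p := fun S => ¬ f S = 1)]
  constructor
  · omega
  · omega

open Pool.Agent.Helper456.HC in
lemma feasible_of (t k v : ℕ) (htk : t ≤ k) (hkv : k ≤ v) (h : LargeSetTwo t k v) :
    Feasible t k v := by
  obtain ⟨B₁, B₂, hd, hu, lam, hl⟩ := h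
  intro i hi
  set P := (Finset.univ : Finset (Fin v)).powersetCard k with hP
  set f : Finset (Fin v) → ℤ := fun S => if S ∈ B₁ then 1 else -1 with hf
  have hB1 : ∀ T : Finset (Fin v), (P.filter (fun S => T ⊆ S)).filter (fun S => S ∈ B₁)
      = B₁.filter (fun S => T ⊆ S) := by
    intro T
    ext S
    rw [Finset.mem_filter, Finset.mem_filter, Finset.mem_filter, ← hu, Finset.mem_union]
    tauto
  have hB2 : ∀ T : Finset (Fin v), (P.filter (fun S => T ⊆ S)).filter (fun S => ¬ S ∈ B₁)
      = B₂.filter (fun S => T ⊆ S) := by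
    intro T
    ext S
    rw [Finset.mem_filter, Finset.mem_filter, Finset.mem_filter, ← hu, Finset.mem_union]
    have h' : S ∈ B₁ → S ∉ B₂ := fun h1 => Finset.disjoint_left.1 hd h1
    tauto
  have hsum : ∀ T : Finset (Fin v), ∑ S ∈ P.filter (fun S => T ⊆ S), f S
      = ((B₁.filter (fun S => T ⊆ S)).card : ℤ) - (B₂.filter (fun S => T ⊆ S)).card := by
    intro T
    rw [← Finset.sum_filter_add_sum_filter_not (P.filter (fun S => T ⊆ S)) (fun S => S ∈ B₁)]
    have e1 : ∑ S ∈ (P.filter (fun S => T ⊆ S)).filter (fun S => S ∈ B₁), f S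
        = ∑ S ∈ (P.filter (fun S => T ⊆ S)).filter (fun S => S ∈ B₁), (1 : ℤ) := by
      refine Finset.sum_congr rfl fun S hS => ?_
      rw [hf]; simp only [(Finset.mem_filter.1 hS).2, if_true]
    have e2 : ∑ S ∈ (P.filter (fun S => T ⊆ S)).filter (fun S => ¬ S ∈ B₁), f S
        = ∑ S ∈ (P.filter (fun S => T ⊆ S)).filter (fun S => ¬ S ∈ B₁), (-1 : ℤ) := by
      refine Finset.sum_congr rfl fun S hS => ?_
      rw [hf]; simp only [(Finset.mem_filter.1 hS).2, if_false]
    rw [e1, e2, Finset.sum_const, Finset.sum_const, hB1, hB2]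
    simp only [nsmul_eq_mul]
    ring
  have hnull : ∀ T ∈ (Finset.univ : Finset (Fin v)).powersetCard t,
      ∑ S ∈ P.filter (fun S => T ⊆ S), f S = 0 := by
    intro T hT
    rw [Finset.mem_powersetCard] at hT
    rw [hsum T, (hl T hT.2).1, (hl T hT.2).2]; ring
  obtain ⟨I, -, hI⟩ := Finset.exists_subset_card_eq (s := (Finset.univ : Finset (Fin v)))
    (n := i) (by rw [Finset.card_univ, Fintype.card_fin]; omega)
  have h1 := null_of_null t k htk (Finset.univ : Finset (Fin v)) f hnull I (by omega)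
  rw [hsum I] at h1
  have h2 := Finset.card_filter_add_card_filter_not (s := P.filter (fun S => I ⊆ S))
    (fun S => S ∈ B₁)
  rw [hB1, hB2, hP, card_sup _ _ _ (Finset.subset_univ I) (by omega), Finset.card_univ,
    Fintype.card_fin, hI] at h2
  refine ⟨(B₁.filter (fun S => I ⊆ S)).card, ?_⟩
  omega

/-- (1) For `t = 3` the halving conjecture holds for all `k` and `v`.
(2) For every `t` there is `v0` such that the halving conjecture holds for all `v ≥ v0` and all
`k` with `2 t + 1 ≤ k ≤ v - 2 t - 1`. -/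
theorem result :
    (∀ k v : ℕ, 3 ≤ k → k ≤ v → (LargeSetTwo 3 k v ↔ Feasible 3 k v)) ∧
    (∀ t : ℕ, ∃ v0 : ℕ, ∀ v : ℕ, v0 ≤ v → ∀ k : ℕ, 2 * t + 1 ≤ k → k + (2 * t + 1) ≤ v →
      (LargeSetTwo t k v ↔ Feasible t k v)) := by
  constructor
  · intro k v hk hkv
    refine ⟨feasible_of 3 k v hk hkv, fun h => ?_⟩
    have h3 : 3 < k := by
      rcases Nat.eq_or_lt_of_le hk with h1 | h1
      · exfalso
        have := h 3 le_rfl
        rw [← h1, Nat.sub_self, Nat.choose_zero_right] at this
        omega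
      · exact h1
    have hkv' : k < v := by
      rcases Nat.eq_or_lt_of_le hkv with h1 | h1
      · exfalso
        have := h 0 (by norm_num)
        rw [← h1, Nat.sub_zero, Nat.choose_self] at this
        omega
      · exact h1
    exact of_LS 3 k v hk (Pool.Agent.Helper456.HC.halving v k h3 hkv' (fun i hi =>
      Nat.mod_eq_zero_of_dvd (h i (by omega))))
  · intro t
    obtain ⟨v0, hv0⟩ := Pool.Agent.Helper456.HD.asym2 t
    refine ⟨v0, fun v hv k hk hkv => ?_⟩
    refine ⟨feasible_of t k v (by omega) (by omega), fun h => ?_⟩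
    exact of_LS t k v (by omega) (hv0 v hv k hk (by omega) h)

end Pool.Agent.Results.MP_7acab9_co.CentralHalving
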